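import Mathlib
set_option autoImplicit false
/-!
# MP_999027_co : piercing the `n × n` chessboard by lines in the four queen directions needs exactly `n` lines
-/
namespace Pool.Agent.Results.MP_999027_co.QueenDirectionsExact
open Finset

/-- A line `{(x, y) : A x + B y = C}` in the plane. -/
structure Line where
  A : ℝ
  B : ℝ
  C : ℝ
  nz : A ≠ 0 ∨ B ≠ 0

/-- The line `l` pierces the cell in column `i` and row `j` (`0 ≤ i, j < n`) of the `n × n`
chessboard placed in `[-1, 1]²`: it meets the interior of the cell. -/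
def Pierces (n : ℕ) (l : Line) (i j : Fin n) : Prop :=
  ∃ x y : ℝ, -1 + 2 * (i : ℝ) / n < x ∧ x < -1 + 2 * ((i : ℝ) + 1) / n ∧
    -1 + 2 * (j : ℝ) / n < y ∧ y < -1 + 2 * ((j : ℝ) + 1) / n ∧ l.A * x + l.B * y = l.C

/-- The line is horizontal, vertical or of slope `1` or `-1`. -/
def QueenDirection (l : Line) : Prop := l.A = 0 ∨ l.B = 0 ∨ l.A = l.B ∨ l.A = -l.B

lemma card_le_two (T : Finset ℤ) (h : ∀ x ∈ T, ∀ y ∈ T, x ≤ y + 1) : T.card ≤ 2 := by
  rcases T.eq_empty_or_nonempty with rfl | hne
  · simp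
  · have hm := T.min'_mem hne
    have hsub : T ⊆ {T.min' hne, T.min' hne + 1} := by
      intro x hx
      have h1 := T.min'_le x hx
      have h2 := h x hx _ hm
      rw [Finset.mem_insert, Finset.mem_singleton]
      omega
    exact (Finset.card_le_card hsub).trans Finset.card_le_two

/-- the relation of a line of slope `1` or `-1` -/
def Diag {n : ℕ} (R : Fin n → Fin n → Prop) : Prop :=
  (∀ i j i' j', R i j → R i' j' → (j : ℤ) - i ≤ j' - i' + 1) ∨
    (∀ i j i' j', R i j → R i' j' → (j : ℤ) + i ≤ j' + i' + 1)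

lemma half {n m : ℕ} (Kd : Finset (Fin m)) (R : Fin m → Fin n → Fin n → Prop) (W : Finset (Fin n))
    (c1 c2 : Fin n) (hc : c1 < c2) (hW : ∀ r ∈ W, ∀ r' ∈ W, (r : ℤ) - r' < c2 - c1)
    (hcov : ∀ c, (c = c1 ∨ c = c2) → ∀ r ∈ W, ∃ k ∈ Kd, R k c r)
    (hd : ∀ k ∈ Kd, Diag (R k)) : W.card ≤ Kd.card := by
  classical
  have hcc : (c1 : ℤ) < c2 := by
    have : (c1 : ℕ) < c2 := hc
    exact_mod_cast this
  set S := ({c1, c2} : Finset (Fin n)) ×ˢ W with hS
  have hcard : S.card = 2 * W.card := by
    rw [hS, Finset.card_product, Finset.card_pair (ne_of_lt hc)]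
  have hmem : ∀ p ∈ S, (p.1 = c1 ∨ p.1 = c2) ∧ p.2 ∈ W := by
    intro p hp
    rw [hS, Finset.mem_product, Finset.mem_insert, Finset.mem_singleton] at hp
    exact hp
  have hsub : S ⊆ Kd.biUnion (fun k => S.filter (fun p => R k p.1 p.2)) := by
    intro p hp
    obtain ⟨h1, h2⟩ := hmem p hp
    obtain ⟨k, hk, hR⟩ := hcov p.1 h1 p.2 h2
    rw [Finset.mem_biUnion]
    exact ⟨k, hk, Finset.mem_filter.2 ⟨hp, hR⟩⟩
  have hle := (Finset.card_le_card hsub).trans (Finset.card_biUnion_le_card_mul Kd _ 2 (by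
    intro k hk
    rcases hd k hk with h | h
    · have hinj : Set.InjOn (fun p : Fin n × Fin n => (p.2 : ℤ) - (p.1 : ℤ))
          (S.filter (fun p => R k p.1 p.2) : Set (Fin n × Fin n)) := by
        intro p hp q hq hpq
        obtain ⟨a1, a2⟩ := hmem p (Finset.mem_filter.1 (Finset.mem_coe.1 hp)).1
        obtain ⟨b1, b2⟩ := hmem q (Finset.mem_filter.1 (Finset.mem_coe.1 hq)).1
        have w1 := hW _ a2 _ b2
        have w2 := hW _ b2 _ a2
        simp only at hpq
        have e1 : p.1 = q.1 := by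
          rcases a1 with a1 | a1 <;> rcases b1 with b1 | b1
          · rw [a1, b1]
          · exfalso; rw [a1, b1] at hpq; omega
          · exfalso; rw [a1, b1] at hpq; omega
          · rw [a1, b1]
        have e2 : p.2 = q.2 := by
          rw [e1] at hpq
          apply Fin.ext
          omega
        exact Prod.ext e1 e2
      rw [← Finset.card_image_of_injOn hinj]
      apply card_le_two
      intro x hx y hy
      rw [Finset.mem_image] at hx hy
      obtain ⟨p, hp, rfl⟩ := hx
      obtain ⟨q, hq, rfl⟩ := hy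
      exact h _ _ _ _ (Finset.mem_filter.1 hp).2 (Finset.mem_filter.1 hq).2
    · have hinj : Set.InjOn (fun p : Fin n × Fin n => (p.2 : ℤ) + (p.1 : ℤ))
          (S.filter (fun p => R k p.1 p.2) : Set (Fin n × Fin n)) := by
        intro p hp q hq hpq
        obtain ⟨a1, a2⟩ := hmem p (Finset.mem_filter.1 (Finset.mem_coe.1 hp)).1
        obtain ⟨b1, b2⟩ := hmem q (Finset.mem_filter.1 (Finset.mem_coe.1 hq)).1
        have w1 := hW _ a2 _ b2
        have w2 := hW _ b2 _ a2
        simp only at hpq
        have e1 : p.1 = q.1 := by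
          rcases a1 with a1 | a1 <;> rcases b1 with b1 | b1
          · rw [a1, b1]
          · exfalso; rw [a1, b1] at hpq; omega
          · exfalso; rw [a1, b1] at hpq; omega
          · rw [a1, b1]
        have e2 : p.2 = q.2 := by
          rw [e1] at hpq
          apply Fin.ext
          omega
        exact Prod.ext e1 e2
      rw [← Finset.card_image_of_injOn hinj]
      apply card_le_two
      intro x hx y hy
      rw [Finset.mem_image] at hx hy
      obtain ⟨p, hp, rfl⟩ := hx
      obtain ⟨q, hq, rfl⟩ := hy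
      exact h _ _ _ _ (Finset.mem_filter.1 hp).2 (Finset.mem_filter.1 hq).2))
  rw [hcard] at hle
  omega

/-- the bound obtained from the two extreme uncovered columns -/
lemma strip {n m : ℕ} (Kd : Finset (Fin m)) (R : Fin m → Fin n → Fin n → Prop) (W : Finset (Fin n))
    (c1 c2 r1 r2 : Fin n) (hc : c1 < c2) (hW : ∀ r ∈ W, r1 ≤ r ∧ r ≤ r2) (hr2 : r2 ∈ W)
    (hs : (r2 : ℤ) - r1 ≤ c2 - c1)
    (hcov : ∀ c, (c = c1 ∨ c = c2) → ∀ r ∈ W, ∃ k ∈ Kd, R k c r)
    (hd : ∀ k ∈ Kd, Diag (R k)) :
    W.card ≤ Kd.card + 1 ∧ ((r2 : ℤ) - r1 < c2 - c1 → W.card ≤ Kd.card) := by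
  classical
  have hb : ∀ r ∈ W, (r1 : ℤ) ≤ r ∧ (r : ℤ) ≤ r2 := by
    intro r hr
    have h1 : (r1 : ℕ) ≤ r := (hW r hr).1
    have h2 : (r : ℕ) ≤ r2 := (hW r hr).2
    exact ⟨by exact_mod_cast h1, by exact_mod_cast h2⟩
  constructor
  · have h := half Kd R (W.erase r2) c1 c2 hc (by
      intro r hr r' hr'
      rw [Finset.mem_erase] at hr hr'
      have h1 := hb r hr.2
      have h2 := hb r' hr'.2
      have h3 : (r : ℕ) ≠ r2 := fun h => hr.1 (Fin.ext h)
      omega) (fun c hc' r hr => hcov c hc' r (Finset.mem_of_mem_erase hr)) hd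
    rw [Finset.card_erase_of_mem hr2] at h
    omega
  · intro hlt
    apply half Kd R W c1 c2 hc _ hcov hd
    intro r hr r' hr'
    have h1 := hb r hr
    have h2 := hb r' hr'
    omega

/-- the covering lemma for one colour class of the chessboard -/
lemma colour (n : ℕ) (ε : ℕ) (hε : ε < 2) (D A : Finset ℤ)
    (h : ∀ i j : ℕ, i < n → j < n → (i + j) % 2 = ε → ((j : ℤ) - i) ∈ D ∨ ((i : ℤ) + j) ∈ A) :
    ∃ t : ℕ, t % 2 = ε ∧ (1 ≤ t → t - 1 ≤ D.card) ∧ n - t ≤ A.card := by
  classical
  have hex : ∃ t : ℕ, t % 2 = ε ∧ ¬ ((t : ℤ) ∈ D ∧ (-(t : ℤ)) ∈ D) := by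
    by_contra hcon
    push Not at hcon
    have hinj : Function.Injective (fun s : ℕ => (((2 * s + ε : ℕ)) : ℤ)) := by
      intro a b hab
      simp only at hab
      omega
    have hinf : Set.Infinite (Set.range (fun s : ℕ => (((2 * s + ε : ℕ)) : ℤ))) :=
      Set.infinite_range_of_injective hinj
    apply hinf
    apply (D.finite_toSet).subset
    rintro x ⟨s, rfl⟩
    exact (hcon (2 * s + ε) (by omega)).1
  obtain ⟨ht1, ht2⟩ := Nat.find_spec hex
  have hmin : ∀ s : ℕ, s < Nat.find hex → s % 2 = ε → (s : ℤ) ∈ D ∧ (-(s : ℤ)) ∈ D := by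
    intro s hs hse
    by_contra hcon
    exact Nat.find_min hex hs ⟨hse, hcon⟩
  generalize Nat.find hex = t at *
  refine ⟨t, ht1, ?_, ?_⟩
  · intro ht
    -- the diagonals `u` with `|u| < t`, `u ≡ ε`
    have hsub : (Finset.range (t - 1)).image (fun s : ℕ => 2 * (s : ℤ) - ((t : ℤ) - 2)) ⊆ D := by
      intro x hx
      rw [Finset.mem_image] at hx
      obtain ⟨s, hs, rfl⟩ := hx
      rw [Finset.mem_range] at hs
      rcases le_total 0 (2 * (s : ℤ) - ((t : ℤ) - 2)) with h0 | h0
      · obtain ⟨r, hr⟩ := Int.eq_ofNat_of_zero_le h0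
        rw [hr]
        exact (hmin r (by omega) (by omega)).1
      · obtain ⟨r, hr⟩ := Int.eq_ofNat_of_zero_le (show 0 ≤ -(2 * (s : ℤ) - ((t : ℤ) - 2)) by omega)
        have : 2 * (s : ℤ) - ((t : ℤ) - 2) = -(r : ℤ) := by omega
        rw [this]
        exact (hmin r (by omega) (by omega)).2
    have hc := Finset.card_le_card hsub
    rw [Finset.card_image_of_injective, Finset.card_range] at hc
    · exact hc
    · intro a b hab
      simp only at hab
      omega
  · have hsub : (Finset.range (n - t)).image (fun s : ℕ => (t : ℤ) + 2 * s) ⊆ A := by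
      intro x hx
      rw [Finset.mem_image] at hx
      obtain ⟨s, hs, rfl⟩ := hx
      rw [Finset.mem_range] at hs
      by_cases hD : (t : ℤ) ∈ D
      · have hD' : (-(t : ℤ)) ∉ D := fun h' => ht2 ⟨hD, h'⟩
        have := h (s + t) s (by omega) (by omega) (by omega)
        rcases this with h' | h'
        · exfalso
          apply hD'
          convert h' using 1
          push_cast
          ring
        · convert h' using 1
          push_cast
          ring
      · have := h s (s + t) (by omega) (by omega) (by omega)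
        rcases this with h' | h'
        · exfalso
          apply hD
          convert h' using 1
          push_cast
          ring
        · convert h' using 1
          push_cast
          ring
    have hc := Finset.card_le_card hsub
    rw [Finset.card_image_of_injective, Finset.card_range] at hc
    · exact hc
    · intro a b hab
      simp only at hab
      omega

/-- families of lines of slope `1` and `-1` only: at least `n` lines -/
lemma diagOnly {n m : ℕ} (R : Fin m → Fin n → Fin n → Prop) (hcov : ∀ i j, ∃ k, R k i j)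
    (hd : ∀ k, Diag (R k)) (hn : 0 < n) : n ≤ m := by
  classical
  by_contra hlt
  push Not at hlt
  -- lower ends
  have hlow : ∀ k : Fin m, ∃ b : Bool, ∃ e : ℤ, ∀ i j, R k i j →
      (b = true → ((j : ℤ) - i = e ∨ (j : ℤ) - i = e + 1)) ∧
      (b = false → ((j : ℤ) + i = e ∨ (j : ℤ) + i = e + 1)) := by
    intro k
    rcases hd k with h | h
    · by_cases hne : ∃ z : ℤ, ∃ i j, R k i j ∧ (j : ℤ) - i = z
      · -- least value
        obtain ⟨e, ⟨i0, j0, hR0, he⟩, hle⟩ := Int.exists_least_of_bdd
          (P := fun z => ∃ i j, R k i j ∧ (j : ℤ) - i = z) ⟨-(n : ℤ), by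
            rintro z ⟨i, j, _, rfl⟩
            have := i.2
            omega⟩ hne
        refine ⟨true, e, fun i j hR => ⟨fun _ => ?_, fun h' => by simp at h'⟩⟩
        have h1 := hle _ ⟨i, j, hR, rfl⟩
        have h2 := h _ _ _ _ hR hR0
        omega
      · refine ⟨true, 0, fun i j hR => ?_⟩
        exact absurd ⟨_, i, j, hR, rfl⟩ hne
    · by_cases hne : ∃ z : ℤ, ∃ i j, R k i j ∧ (j : ℤ) + i = z
      · obtain ⟨e, ⟨i0, j0, hR0, he⟩, hle⟩ := Int.exists_least_of_bdd
          (P := fun z => ∃ i j, R k i j ∧ (j : ℤ) + i = z) ⟨-(n : ℤ), by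
            rintro z ⟨i, j, _, rfl⟩
            omega⟩ hne
        refine ⟨false, e, fun i j hR => ⟨fun h' => by simp at h', fun _ => ?_⟩⟩
        have h1 := hle _ ⟨i, j, hR, rfl⟩
        have h2 := h _ _ _ _ hR hR0
        omega
      · refine ⟨false, 0, fun i j hR => ?_⟩
        exact absurd ⟨_, i, j, hR, rfl⟩ hne
  choose b e hbe using hlow
  set P := Finset.univ.filter (fun k : Fin m => b k = true) with hP
  set Q := Finset.univ.filter (fun k : Fin m => b k = false) with hQ
  have hPQ : P.card + Q.card ≤ m := by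
    have d1 : Disjoint P Q := by
      rw [Finset.disjoint_left]
      intro k h1 h2
      have e1 := (Finset.mem_filter.1 h1).2
      have e2 := (Finset.mem_filter.1 h2).2
      rw [e1] at e2
      exact absurd e2 (by simp)
    rw [← Finset.card_union_of_disjoint d1]
    exact (Finset.card_le_univ _).trans_eq (Fintype.card_fin m)
  have hcol : ∀ ε : ℕ, ε < 2 → ∃ t : ℕ, t % 2 = ε ∧ (1 ≤ t → t - 1 ≤ P.card) ∧ n - t ≤ Q.card := by
    intro ε hε
    obtain ⟨t, h1, h2, h3⟩ := colour n ε hε
      (P.image (fun k => if (e k) % 2 = ε then e k else e k + 1))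
      (Q.image (fun k => if (e k) % 2 = ε then e k else e k + 1)) (by
        intro i j hi hj hij
        obtain ⟨k, hk⟩ := hcov ⟨i, hi⟩ ⟨j, hj⟩
        have hk' := hbe k _ _ hk
        simp only at hk'
        rcases Bool.eq_false_or_eq_true (b k) with hb | hb
        · left
          rw [Finset.mem_image]
          refine ⟨k, Finset.mem_filter.2 ⟨Finset.mem_univ _, hb⟩, ?_⟩
          have := hk'.1 hb
          split_ifs with hs <;> omega
        · right
          rw [Finset.mem_image]
          refine ⟨k, Finset.mem_filter.2 ⟨Finset.mem_univ _, hb⟩, ?_⟩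
          have := hk'.2 hb
          split_ifs with hs <;> omega)
    exact ⟨t, h1, fun ht => (h2 ht).trans Finset.card_image_le, h3.trans Finset.card_image_le⟩
  obtain ⟨t, a1, a2, a3⟩ := hcol 0 (by norm_num)
  obtain ⟨s, b1, b2, b3⟩ := hcol 1 (by norm_num)
  have ht : 1 ≤ t := by
    by_contra h
    have : t = 0 := by omega
    subst this
    omega
  have hs : 1 ≤ s := by omega
  have := a2 ht
  have := b2 hs
  omega

/-- the combinatorial core -/
theorem core {n m : ℕ} (R : Fin m → Fin n → Fin n → Prop) (hcov : ∀ i j, ∃ k, R k i j)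
    (ht : ∀ k, (∀ i j i' j', R k i j → R k i' j' → i = i') ∨
      (∀ i j i' j', R k i j → R k i' j' → j = j') ∨ Diag (R k)) : n ≤ m := by
  classical
  set Kv := Finset.univ.filter (fun k : Fin m => ∀ i j i' j', R k i j → R k i' j' → i = i') with hKv
  set Kh := Finset.univ.filter (fun k : Fin m => (¬ ∀ i j i' j', R k i j → R k i' j' → i = i') ∧
    ∀ i j i' j', R k i j → R k i' j' → j = j') with hKh
  set Kd := Finset.univ.filter (fun k : Fin m => (¬ ∀ i j i' j', R k i j → R k i' j' → i = i') ∧
    ¬ ∀ i j i' j', R k i j → R k i' j' → j = j') with hKd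
  have hm : Kv.card + Kh.card + Kd.card ≤ m := by
    have d1 : Disjoint Kv Kh := by
      rw [Finset.disjoint_left]
      intro k h1 h2
      exact (Finset.mem_filter.1 h2).2.1 (Finset.mem_filter.1 h1).2
    have d2 : Disjoint (Kv ∪ Kh) Kd := by
      rw [Finset.disjoint_left]
      intro k h1 h2
      rcases Finset.mem_union.1 h1 with h1 | h1
      · exact (Finset.mem_filter.1 h2).2.1 (Finset.mem_filter.1 h1).2
      · exact (Finset.mem_filter.1 h2).2.2 (Finset.mem_filter.1 h1).2.2
    rw [← Finset.card_union_of_disjoint d1, ← Finset.card_union_of_disjoint d2]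
    exact (Finset.card_le_univ _).trans_eq (Fintype.card_fin m)
  set U := Finset.univ.filter (fun i : Fin n => ¬ ∃ k ∈ Kv, ∃ j, R k i j) with hU
  set W := Finset.univ.filter (fun j : Fin n => ¬ ∃ k ∈ Kh, ∃ i, R k i j) with hW
  have hUc : n ≤ U.card + Kv.card := by
    have h1 : n ≤ U.card + (Finset.univ.filter (fun i : Fin n => ∃ k ∈ Kv, ∃ j, R k i j)).card := by
      have h0 : (Finset.univ : Finset (Fin n)) ⊆
          U ∪ Finset.univ.filter (fun i : Fin n => ∃ k ∈ Kv, ∃ j, R k i j) := by
        intro i _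
        by_cases h : ∃ k ∈ Kv, ∃ j, R k i j
        · exact Finset.mem_union_right _ (Finset.mem_filter.2 ⟨Finset.mem_univ _, h⟩)
        · exact Finset.mem_union_left _ (Finset.mem_filter.2 ⟨Finset.mem_univ _, h⟩)
      have := (Finset.card_le_card h0).trans (Finset.card_union_le _ _)
      rwa [Finset.card_univ, Fintype.card_fin] at this
    have h2 : (Finset.univ.filter (fun i : Fin n => ∃ k ∈ Kv, ∃ j, R k i j)).card ≤ Kv.card := by
      have hch : ∀ i : Fin n, ∃ k : Fin m, (∃ k ∈ Kv, ∃ j, R k i j) → k ∈ Kv ∧ ∃ j, R k i j := by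
        intro i
        by_cases h : ∃ k ∈ Kv, ∃ j, R k i j
        · obtain ⟨k, hk, hj⟩ := h
          exact ⟨k, fun _ => ⟨hk, hj⟩⟩
        · obtain ⟨k, _⟩ := hcov i i
          exact ⟨k, fun h' => absurd h' h⟩
      choose f hf using hch
      apply Finset.card_le_card_of_injOn f
      · intro i hi
        exact (hf i (Finset.mem_filter.1 (Finset.mem_coe.1 hi)).2).1
      · intro i hi i' hi' he
        have a := hf i (Finset.mem_filter.1 (Finset.mem_coe.1 hi)).2
        have b := hf i' (Finset.mem_filter.1 (Finset.mem_coe.1 hi')).2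
        obtain ⟨a1, j, a2⟩ := a
        obtain ⟨b1, j', b2⟩ := b
        rw [← he] at b2
        exact (Finset.mem_filter.1 a1).2 i j i' j' a2 b2
    omega
  have hWc : n ≤ W.card + Kh.card := by
    have h1 : n ≤ W.card + (Finset.univ.filter (fun j : Fin n => ∃ k ∈ Kh, ∃ i, R k i j)).card := by
      have h0 : (Finset.univ : Finset (Fin n)) ⊆
          W ∪ Finset.univ.filter (fun j : Fin n => ∃ k ∈ Kh, ∃ i, R k i j) := by
        intro i _
        by_cases h : ∃ k ∈ Kh, ∃ j, R k j i
        · exact Finset.mem_union_right _ (Finset.mem_filter.2 ⟨Finset.mem_univ _, h⟩)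
        · exact Finset.mem_union_left _ (Finset.mem_filter.2 ⟨Finset.mem_univ _, h⟩)
      have := (Finset.card_le_card h0).trans (Finset.card_union_le _ _)
      rwa [Finset.card_univ, Fintype.card_fin] at this
    have h2 : (Finset.univ.filter (fun j : Fin n => ∃ k ∈ Kh, ∃ i, R k i j)).card ≤ Kh.card := by
      have hch : ∀ j : Fin n, ∃ k : Fin m, (∃ k ∈ Kh, ∃ i, R k i j) → k ∈ Kh ∧ ∃ i, R k i j := by
        intro j
        by_cases h : ∃ k ∈ Kh, ∃ i, R k i j
        · obtain ⟨k, hk, hj⟩ := h
          exact ⟨k, fun _ => ⟨hk, hj⟩⟩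
        · obtain ⟨k, _⟩ := hcov j j
          exact ⟨k, fun h' => absurd h' h⟩
      choose f hf using hch
      apply Finset.card_le_card_of_injOn f
      · intro i hi
        exact (hf i (Finset.mem_filter.1 (Finset.mem_coe.1 hi)).2).1
      · intro i hi i' hi' he
        have a := hf i (Finset.mem_filter.1 (Finset.mem_coe.1 hi)).2
        have b := hf i' (Finset.mem_filter.1 (Finset.mem_coe.1 hi')).2
        obtain ⟨a1, j, a2⟩ := a
        obtain ⟨b1, j', b2⟩ := b
        rw [← he] at b2
        exact (Finset.mem_filter.1 a1).2.2 j i j' i' a2 b2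
    omega
  rcases U.eq_empty_or_nonempty with hUe | hUn
  · rw [hUe, Finset.card_empty] at hUc
    omega
  rcases W.eq_empty_or_nonempty with hWe | hWn
  · rw [hWe, Finset.card_empty] at hWc
    omega
  have hcell : ∀ i ∈ U, ∀ j ∈ W, ∃ k ∈ Kd, R k i j := by
    intro i hi j hj
    obtain ⟨k, hk⟩ := hcov i j
    refine ⟨k, ?_, hk⟩
    have h1 : k ∉ Kv := fun h => (Finset.mem_filter.1 hi).2 ⟨k, h, j, hk⟩
    have h2 : k ∉ Kh := fun h => (Finset.mem_filter.1 hj).2 ⟨k, h, i, hk⟩
    rw [hKv, Finset.mem_filter] at h1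
    rw [hKh, Finset.mem_filter] at h2
    rw [hKd, Finset.mem_filter]
    refine ⟨Finset.mem_univ _, fun h => h1 ⟨Finset.mem_univ _, h⟩, fun h => ?_⟩
    exact h2 ⟨Finset.mem_univ _, fun h' => h1 ⟨Finset.mem_univ _, h'⟩, h⟩
  have hdiag : ∀ k ∈ Kd, Diag (R k) := by
    intro k hk
    rw [hKd, Finset.mem_filter] at hk
    rcases ht k with h | h | h
    · exact absurd h hk.2.1
    · exact absurd h hk.2.2
    · exact h
  set c1 := U.min' hUn with hc1
  set c2 := U.max' hUn with hc2
  set r1 := W.min' hWn with hr1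
  set r2 := W.max' hWn with hr2
  have hUb : ∀ c ∈ U, c1 ≤ c ∧ c ≤ c2 := fun c h => ⟨U.min'_le c h, U.le_max' c h⟩
  have hWb : ∀ c ∈ W, r1 ≤ c ∧ c ≤ r2 := fun c h => ⟨W.min'_le c h, W.le_max' c h⟩
  have mc1 : c1 ∈ U := U.min'_mem hUn
  have mc2 : c2 ∈ U := U.max'_mem hUn
  have mr1 : r1 ∈ W := W.min'_mem hWn
  have mr2 : r2 ∈ W := W.max'_mem hWn
  have hn : 0 < n := c1.pos
  have hcol : (∀ r ∈ W, ∃ k ∈ Kd, R k c1 r) := fun r hr => hcell _ mc1 r hr
  have hKd1 : 1 ≤ Kd.card := by
    obtain ⟨k, hk, _⟩ := hcell c1 mc1 r1 mr1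
    exact Finset.card_pos.2 ⟨k, hk⟩
  have hdiag' : ∀ k ∈ Kd, Diag (fun i j => R k j i) := by
    intro k hk
    rcases hdiag k hk with h | h
    · left
      intro i j i' j' h1 h2
      have := h j' i' j i h2 h1
      omega
    · right
      intro i j i' j' h1 h2
      have := h j i j' i' h1 h2
      omega
  have hc12 : c1 ≤ c2 := (hUb c2 mc2).1
  have hr12 : r1 ≤ r2 := (hWb r2 mr2).1
  have hA : c1 < c2 → (r2 : ℤ) - r1 ≤ c2 - c1 →
      W.card ≤ Kd.card + 1 ∧ ((r2 : ℤ) - r1 < c2 - c1 → W.card ≤ Kd.card) := by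
    intro hlt hs
    exact strip Kd R W c1 c2 r1 r2 hlt hWb mr2 hs (by
      rintro c (rfl | rfl) r hr
      · exact hcell _ mc1 r hr
      · exact hcell _ mc2 r hr) hdiag
  have hB : r1 < r2 → (c2 : ℤ) - c1 ≤ r2 - r1 →
      U.card ≤ Kd.card + 1 ∧ ((c2 : ℤ) - c1 < r2 - r1 → U.card ≤ Kd.card) := by
    intro hlt hs
    exact strip Kd (fun k i j => R k j i) U r1 r2 c1 c2 hlt hUb mc2 hs (by
      rintro c (rfl | rfl) r hr
      · exact hcell r hr _ mr1
      · exact hcell r hr _ mr2) hdiag'
  rcases lt_trichotomy ((r2 : ℤ) - r1) (c2 - c1) with hs | hs | hs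
  · have hlt : c1 < c2 := by
      have h1 : (r1 : ℕ) ≤ r2 := hr12
      rw [Fin.lt_def]
      omega
    have := (hA hlt hs.le).2 hs
    omega
  · rcases eq_or_lt_of_le hc12 with he | hlt
    · -- a single uncovered column
      have : U ⊆ {c1} := by
        intro c hc
        have := hUb c hc
        rw [Finset.mem_singleton]
        rw [← he] at this
        exact le_antisymm this.2 this.1
      have h1 := Finset.card_le_card this
      rw [Finset.card_singleton] at h1
      omega
    · have hlt' : r1 < r2 := by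
        have h1 : (c1 : ℕ) < c2 := hlt
        rw [Fin.lt_def]
        omega
      have h1 := (hA hlt hs.le).1
      have h2 := (hB hlt' hs.ge).1
      rcases Nat.eq_zero_or_pos Kv.card with hv | hv
      · rcases Nat.eq_zero_or_pos Kh.card with hh | hh
        · have hall : ∀ k, Diag (R k) := by
            intro k
            by_cases hk : k ∈ Kd
            · exact hdiag k hk
            · exfalso
              rw [Finset.card_eq_zero] at hv hh
              have n1 : k ∉ Kv := by rw [hv]; simp
              have n2 : k ∉ Kh := by rw [hh]; simp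
              rw [hKv, Finset.mem_filter] at n1
              rw [hKh, Finset.mem_filter] at n2
              rw [hKd, Finset.mem_filter] at hk
              apply hk
              refine ⟨Finset.mem_univ _, fun h => n1 ⟨Finset.mem_univ _, h⟩, fun h => ?_⟩
              exact n2 ⟨Finset.mem_univ _, fun h' => n1 ⟨Finset.mem_univ _, h'⟩, h⟩
          exact diagOnly R hcov hall hn
        · omega
      · omega
  · have hlt : r1 < r2 := by
      have h1 : (c1 : ℕ) ≤ c2 := hc12
      rw [Fin.lt_def]
      omega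
    have := (hB hlt hs.le).2 hs
    omega

/-- coordinates in which the cells have side 1 -/
lemma scaled {n : ℕ} (l : Line) (i j : Fin n) (h : Pierces n l i j) :
    ∃ X Y : ℝ, (i : ℝ) < X ∧ X < i + 1 ∧ (j : ℝ) < Y ∧ Y < j + 1 ∧
      l.A * X + l.B * Y = n * (l.C + l.A + l.B) / 2 := by
  obtain ⟨x, y, h1, h2, h3, h4, h5⟩ := h
  have hn : (0 : ℝ) < n := by
    have : 0 < n := i.pos
    exact_mod_cast this
  have key : ∀ (a z : ℝ), -1 + 2 * a / n < z ↔ a < n * (z + 1) / 2 := by
    intro a z
    constructor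
    · intro h
      have h' : 2 * a / n < z + 1 := by linarith
      rw [div_lt_iff₀ hn] at h'
      linarith
    · intro h
      have h' : 2 * a / n < z + 1 := by
        rw [div_lt_iff₀ hn]
        linarith
      linarith
  have key' : ∀ (a z : ℝ), z < -1 + 2 * a / n ↔ n * (z + 1) / 2 < a := by
    intro a z
    constructor
    · intro h
      have h' : z + 1 < 2 * a / n := by linarith
      rw [lt_div_iff₀ hn] at h'
      linarith
    · intro h
      have h' : z + 1 < 2 * a / n := by
        rw [lt_div_iff₀ hn]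
        linarith
      linarith
  refine ⟨n * (x + 1) / 2, n * (y + 1) / 2, (key _ _).1 h1, (key' _ _).1 h2, (key _ _).1 h3,
    (key' _ _).1 h4, ?_⟩
  rw [← h5]
  ring

/-- a vertical line through the column `i` -/
noncomputable def vert (n : ℕ) (i : Fin n) : Line := ⟨1, 0, -1 + (2 * (i : ℝ) + 1) / n, Or.inl one_ne_zero⟩

lemma vert_pierces (n : ℕ) (i j : Fin n) : Pierces n (vert n i) i j := by
  have hn : (0 : ℝ) < n := by
    have : 0 < n := i.pos
    exact_mod_cast this
  refine ⟨-1 + (2 * (i : ℝ) + 1) / n, -1 + (2 * (j : ℝ) + 1) / n, ?_, ?_, ?_, ?_, ?_⟩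
  · have : 2 * (i : ℝ) / n < (2 * (i : ℝ) + 1) / n := by
      apply div_lt_div_of_pos_right _ hn
      linarith
    linarith
  · have : (2 * (i : ℝ) + 1) / n < 2 * ((i : ℝ) + 1) / n := by
      apply div_lt_div_of_pos_right _ hn
      linarith
    linarith
  · have : 2 * (j : ℝ) / n < (2 * (j : ℝ) + 1) / n := by
      apply div_lt_div_of_pos_right _ hn
      linarith
    linarith
  · have : (2 * (j : ℝ) + 1) / n < 2 * ((j : ℝ) + 1) / n := by
      apply div_lt_div_of_pos_right _ hn
      linarith
    linarith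
  · simp [vert]

/-- lower bound -/
lemma lower (n m : ℕ) (L : Fin m → Line) (hL : ∀ k, QueenDirection (L k))
    (hcov : ∀ i j : Fin n, ∃ k, Pierces n (L k) i j) : n ≤ m := by
  apply core (fun k i j => Pierces n (L k) i j) hcov
  intro k
  have hnz := (L k).nz
  by_cases hB : (L k).B = 0
  · left
    have hA : (L k).A ≠ 0 := by
      rcases hnz with h | h
      · exact h
      · exact absurd hB h
    intro i j i' j' h h'
    obtain ⟨X, Y, h1, h2, _, _, h5⟩ := scaled _ _ _ h
    obtain ⟨X', Y', h1', h2', _, _, h5'⟩ := scaled _ _ _ h'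
    rw [← h5', hB, zero_mul, zero_mul, add_zero, add_zero] at h5
    have hX : X = X' := mul_left_cancel₀ hA h5
    subst hX
    have e1 : (i : ℝ) < i' + 1 := by linarith
    have e2 : (i' : ℝ) < i + 1 := by linarith
    have e1' : (i : ℕ) < i' + 1 := by exact_mod_cast e1
    have e2' : (i' : ℕ) < i + 1 := by exact_mod_cast e2
    apply Fin.ext
    omega
  by_cases hA : (L k).A = 0
  · right; left
    intro i j i' j' h h'
    obtain ⟨X, Y, _, _, h1, h2, h5⟩ := scaled _ _ _ h
    obtain ⟨X', Y', _, _, h1', h2', h5'⟩ := scaled _ _ _ h'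
    rw [← h5', hA, zero_mul, zero_mul, zero_add, zero_add] at h5
    have hX : Y = Y' := mul_left_cancel₀ hB h5
    subst hX
    have e1 : (j : ℝ) < j' + 1 := by linarith
    have e2 : (j' : ℝ) < j + 1 := by linarith
    have e1' : (j : ℕ) < j' + 1 := by exact_mod_cast e1
    have e2' : (j' : ℕ) < j + 1 := by exact_mod_cast e2
    apply Fin.ext
    omega
  right; right
  have hq : (L k).A = (L k).B ∨ (L k).A = -(L k).B := by
    rcases hL k with h | h | h | h
    · exact absurd h hA
    · exact absurd h hB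
    · exact Or.inl h
    · exact Or.inr h
  rcases hq with hq | hq
  · right
    intro i j i' j' h h'
    obtain ⟨X, Y, h1, h2, h3, h4, h5⟩ := scaled _ _ _ h
    obtain ⟨X', Y', h1', h2', h3', h4', h5'⟩ := scaled _ _ _ h'
    rw [← h5', hq, ← mul_add, ← mul_add] at h5
    have hX : X + Y = X' + Y' := mul_left_cancel₀ hB h5
    have e1 : (j : ℝ) + i < j' + i' + 2 := by linarith
    have e1' : (j : ℤ) + i < j' + i' + 2 := by exact_mod_cast e1
    omega
  · left
    intro i j i' j' h h'
    obtain ⟨X, Y, h1, h2, h3, h4, h5⟩ := scaled _ _ _ h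
    obtain ⟨X', Y', h1', h2', h3', h4', h5'⟩ := scaled _ _ _ h'
    have e0 : ∀ a b : ℝ, -(L k).B * a + (L k).B * b = (L k).B * (b - a) := by intro a b; ring
    rw [← h5', hq, e0, e0] at h5
    have hX : Y - X = Y' - X' := mul_left_cancel₀ hB h5
    have e1 : (j : ℝ) - i < j' - i' + 2 := by linarith
    have e1' : (j : ℤ) - i < j' - i' + 2 := by exact_mod_cast e1
    omega

/-- **Queen directions.** The least number `m` of lines that are horizontal, vertical or of slope
`1` or `-1` and together pierce every cell of the `n × n` chessboard is exactly `n`. -/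
theorem result (n : ℕ) :
    IsLeast {m : ℕ | ∃ L : Fin m → Line, (∀ k, QueenDirection (L k)) ∧
      ∀ i j : Fin n, ∃ k, Pierces n (L k) i j} n := by
  constructor
  · refine ⟨fun i => vert n i, fun i => Or.inr (Or.inl rfl), fun i j => ⟨i, vert_pierces n i j⟩⟩
  · rintro m ⟨L, hL, hcov⟩
    exact lower n m L hL hcov

end Pool.Agent.Results.MP_999027_co.QueenDirectionsExact
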